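import Mathlib

/-!
# Control functionals for vector capacities

Every vector capacity with values in a Banach lattice with order continuous norm is absolutely
continuous with respect to `φ ∘ μ` for some positive functional `φ`.
-/

set_option autoImplicit false

open Filter Topology Finset

namespace Pool.Agent.Results.MP_e24518_an.ControlFunctional

/-- The norm is order continuous: every increasing, order bounded sequence converges in norm
(for decreasing sequences pass to the negative). -/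
def OrderContinuousNorm (E : Type*) [NormedAddCommGroup E] [Lattice E] : Prop :=
  ∀ x : ℕ → E, Monotone x → BddAbove (Set.range x) → ∃ y, Tendsto x atTop (𝓝 y)

/-- A vector capacity on the measurable sets of `X` with values in the positive cone. -/
structure IsVectorCapacity {X E : Type*} [MeasurableSpace X] [Zero E] [LE E]
    (μ : Set X → E) : Prop where
  empty : μ ∅ = 0
  nonneg : ∀ A, MeasurableSet A → 0 ≤ μ A
  mono : ∀ A B, MeasurableSet A → MeasurableSet B → A ⊆ B → μ A ≤ μ B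

/-- `μ ≪ lam`. -/
def AbsCont {X E : Type*} [MeasurableSpace X] [NormedAddCommGroup E]
    (μ : Set X → E) (lam : Set X → ℝ) : Prop :=
  ∀ ε > 0, ∃ δ > 0, ∀ A, MeasurableSet A → lam A < δ → ‖μ A‖ < ε

section Lattice

variable {E : Type*} [NormedAddCommGroup E] [NormedSpace ℝ E] [Lattice E]
  [IsOrderedAddMonoid E] [IsOrderedModule ℝ E] [HasSolidNorm E]

omit [NormedSpace ℝ E] [IsOrderedModule ℝ E] in
lemma norm_mono {x y : E} (hx : 0 ≤ x) (hxy : x ≤ y) : ‖x‖ ≤ ‖y‖ := by
  apply norm_le_norm_of_abs_le_abs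
  rw [abs_of_nonneg hx, abs_of_nonneg (hx.trans hxy)]
  exact hxy

omit [IsOrderedAddMonoid E] [HasSolidNorm E] in
lemma smul_posPart' {c : ℝ} (hc : 0 < c) (x : E) : (c • x)⁺ = c • x⁺ := by
  rw [posPart_def, posPart_def]
  apply le_antisymm
  · apply sup_le
    · exact smul_le_smul_of_nonneg_left le_sup_left hc.le
    · exact smul_nonneg hc.le le_sup_right
  · have h1 : x ⊔ 0 ≤ c⁻¹ • (c • x ⊔ 0) := by
      apply sup_le
      · have : c⁻¹ • (c • x) ≤ c⁻¹ • (c • x ⊔ 0) :=
          smul_le_smul_of_nonneg_left le_sup_left (inv_nonneg.2 hc.le)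
        rwa [inv_smul_smul₀ hc.ne'] at this
      · exact smul_nonneg (inv_nonneg.2 hc.le) le_sup_right
    have h2 := smul_le_smul_of_nonneg_left h1 hc.le
    rwa [smul_inv_smul₀ hc.ne'] at h2

/-- Positive norming functionals. -/
lemma exists_norming (x : E) (hx : 0 ≤ x) : ∃ f : E →L[ℝ] ℝ,
    (∀ y, 0 ≤ y → 0 ≤ f y) ∧ f x = ‖x‖ ∧ ∀ y, 0 ≤ y → f y ≤ ‖y‖ := by
  by_cases hx0 : x = 0
  · exact ⟨0, by simp, by simp [hx0], by simp⟩
  set N : E → ℝ := fun y => ‖y⁺‖ with hN
  have hN_hom : ∀ c : ℝ, 0 < c → ∀ y, N (c • y) = c * N y := by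
    intro c hc y
    rw [hN]
    simp only
    rw [smul_posPart' hc, norm_smul, Real.norm_eq_abs, abs_of_pos hc]
  have hN_add : ∀ y z, N (y + z) ≤ N y + N z := by
    intro y z
    refine (norm_mono (posPart_nonneg _) ?_).trans (norm_add_le (y⁺) (z⁺))
    rw [posPart_def]
    apply sup_le
    · exact add_le_add (le_posPart _) (le_posPart _)
    · exact add_nonneg (posPart_nonneg _) (posPart_nonneg _)
  set f₀ : E →ₗ.[ℝ] ℝ := LinearPMap.mkSpanSingleton x ‖x‖ hx0 with hf₀
  have hle : ∀ y : f₀.domain, f₀ y ≤ N y := by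
    rintro ⟨y, hy⟩
    obtain ⟨c, rfl⟩ := Submodule.mem_span_singleton.1 hy
    have : f₀ ⟨c • x, hy⟩ = c • ‖x‖ := LinearPMap.mkSpanSingleton'_apply _ _ _ _ _
    rw [this]
    show c • ‖x‖ ≤ ‖(c • x)⁺‖
    rcases le_or_gt c 0 with hc | hc
    · exact (mul_nonpos_of_nonpos_of_nonneg hc (norm_nonneg _)).trans (norm_nonneg _)
    · rw [smul_posPart' hc, posPart_of_nonneg hx, norm_smul, Real.norm_eq_abs, abs_of_pos hc]
      exact le_rfl
  obtain ⟨g, hg1, hg2⟩ := exists_extension_of_le_sublinear f₀ N hN_hom hN_add hle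
  have hpos : ∀ y, 0 ≤ y → 0 ≤ g y := by
    intro y hy
    have h := hg2 (-y)
    have h0 : N (-y) = 0 := by
      show ‖(-y)⁺‖ = 0
      rw [posPart_of_nonpos (neg_nonpos.2 hy), norm_zero]
    rw [h0, map_neg] at h
    linarith
  have hbd : ∀ y, 0 ≤ y → g y ≤ ‖y‖ := by
    intro y hy
    have h := hg2 y
    rwa [hN, show (fun y : E => ‖y⁺‖) y = ‖y‖ by simp [posPart_of_nonneg hy]] at h
  have hbound : ∀ y, ‖g y‖ ≤ 1 * ‖y‖ := by
    intro y
    rw [one_mul, Real.norm_eq_abs, abs_le]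
    have key : ∀ z, g z ≤ ‖z‖ := by
      intro z
      refine (hg2 z).trans ?_
      show ‖z⁺‖ ≤ ‖z‖
      apply norm_le_norm_of_abs_le_abs
      rw [abs_of_nonneg (posPart_nonneg z), posPart_def]
      exact sup_le (le_abs_self z) (abs_nonneg z)
    constructor
    · have := key (-y)
      rw [map_neg, norm_neg] at this
      linarith
    · exact key y
  refine ⟨g.mkContinuous 1 hbound, hpos, ?_, hbd⟩
  show g x = ‖x‖
  have hxm : x ∈ f₀.domain := Submodule.mem_span_singleton_self x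
  have h1 := hg1 ⟨x, hxm⟩
  simp only at h1
  rw [h1]
  have hm1 : (1 : ℝ) • x ∈ f₀.domain := by rw [one_smul]; exact hxm
  have h2 : f₀ ⟨(1 : ℝ) • x, hm1⟩ = (1 : ℝ) • ‖x‖ :=
    LinearPMap.mkSpanSingleton'_apply _ _ _ _ _
  have h3 : (⟨(1 : ℝ) • x, hm1⟩ : f₀.domain) = ⟨x, hxm⟩ := Subtype.ext (one_smul _ _)
  rw [h3, one_smul] at h2
  exact h2

omit [IsOrderedModule ℝ E] in
/-- The decreasing sequence of suprema of tails, obtained from order continuity. -/
lemma exists_tail_sups (hE : OrderContinuousNorm E) {u : E} {x : ℕ → E}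
    (hx0 : ∀ n, 0 ≤ x n) (hxu : ∀ n, x n ≤ u) :
    ∃ (y : ℕ → E) (z : E), Tendsto y atTop (𝓝 z) ∧ (∀ n, x n ≤ y n) ∧
      ∀ (f : E →L[ℝ] ℝ), (∀ v, 0 ≤ v → 0 ≤ f v) → ∀ (c : ℝ) (n : ℕ),
        (∀ k, ∑ i ∈ range k, f (x (n + i)) ≤ c) → f (y n) ≤ c := by
  have hbdd : ∀ n, BddAbove (Set.range (partialSups (fun k => x (n + k)))) := by
    intro n
    refine ⟨u, ?_⟩
    rintro _ ⟨N, rfl⟩
    exact partialSups_le _ _ _ (fun k _ => hxu _)
  have hlim : ∀ n, ∃ y, Tendsto (partialSups (fun k => x (n + k))) atTop (𝓝 y) := fun n =>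
    hE _ (partialSups _).monotone (hbdd n)
  choose y hy using hlim
  have hle : ∀ n k, x (n + k) ≤ y n := by
    intro n k
    have h1 := (partialSups (fun k => x (n + k))).monotone.ge_of_tendsto (hy n) k
    exact (le_partialSups (fun k => x (n + k)) k).trans h1
  have hleast : ∀ n v, (∀ k, x (n + k) ≤ v) → y n ≤ v := by
    intro n v hv
    exact le_of_tendsto' (hy n) (fun N => partialSups_le _ _ _ (fun k _ => hv k))
  have hanti : Antitone y := by
    apply antitone_nat_of_succ_le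
    intro n
    apply hleast
    intro k
    have := hle n (1 + k)
    rwa [← add_assoc] at this
  have hy0 : ∀ n, 0 ≤ y n := fun n => (hx0 (n + 0)).trans (hle n 0)
  obtain ⟨z, hz⟩ := hE (fun n => - y n) (fun a b hab => neg_le_neg (hanti hab))
    ⟨0, by rintro _ ⟨n, rfl⟩; exact neg_nonpos.2 (hy0 n)⟩
  refine ⟨y, -z, ?_, fun n => hle n 0, ?_⟩
  · simpa using hz.neg
  · intro f hf c n hc
    have hmono : ∀ a b : E, a ≤ b → f a ≤ f b := by
      intro a b hab
      have := hf (b - a) (sub_nonneg.2 hab)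
      rw [map_sub] at this
      linarith
    have h1 : ∀ N, f (partialSups (fun k => x (n + k)) N) ≤ ∑ i ∈ range (N + 1), f (x (n + i)) := by
      intro N
      induction N with
      | zero => simp
      | succ N ih =>
        rw [sum_range_succ]
        have h2 : partialSups (fun k => x (n + k)) (N + 1)
            ≤ partialSups (fun k => x (n + k)) N + x (n + (N + 1)) := by
          rw [partialSups_add_one]
          apply sup_le
          · exact le_add_of_nonneg_right (hx0 _)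
          · apply le_add_of_nonneg_left
            exact (hx0 (n + 0)).trans (le_partialSups_of_le (fun k => x (n + k)) (Nat.zero_le N))
        refine (hmono _ _ h2).trans ?_
        rw [map_add]
        linarith
    exact le_of_tendsto' ((f.continuous.tendsto _).comp (hy n)) (fun N => (h1 N).trans (hc _))

/-- A single positive functional controls the norm on `[0, u]` up to `ε`. -/
lemma exists_functional_eps (hE : OrderContinuousNorm E) (u : E) {ε : ℝ} (hε : 0 < ε) :
    ∃ g : E →L[ℝ] ℝ, (∀ v, 0 ≤ v → 0 ≤ g v) ∧ ∃ δ > 0, ∀ x, 0 ≤ x → x ≤ u → g x < δ →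
      ‖x‖ < ε := by
  by_contra hcon
  push Not at hcon
  -- build a sequence
  obtain ⟨F, hF1, hF2⟩ := exists_seq_of_forall_finset_exists
    (α := E × (E →L[ℝ] ℝ) × ℕ)
    (fun p => 0 ≤ p.1 ∧ p.1 ≤ u ∧ ε ≤ ‖p.1‖ ∧ (∀ v, 0 ≤ v → 0 ≤ p.2.1 v) ∧
      p.2.1 p.1 = ‖p.1‖ ∧ ∀ v, 0 ≤ v → p.2.1 v ≤ ‖v‖)
    (fun p q => p.2.2 < q.2.2 ∧ p.2.1 q.1 < (1 / 2 : ℝ) ^ q.2.2) (by
      intro s hs
      set a : ℕ := s.sup (fun p => p.2.2) + 1 with ha
      set g : E →L[ℝ] ℝ := ∑ p ∈ s, p.2.1 with hg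
      have hgpos : ∀ v, 0 ≤ v → 0 ≤ g v := by
        intro v hv
        rw [hg, _root_.sum_apply]
        exact sum_nonneg (fun p hp => (hs p hp).2.2.2.1 v hv)
      obtain ⟨x, hx0, hxu, hgx, hxε⟩ := hcon g hgpos ((1 / 2 : ℝ) ^ a) (by positivity)
      obtain ⟨f, hf1, hf2, hf3⟩ := exists_norming x hx0
      refine ⟨(x, f, a), ⟨hx0, hxu, hxε, hf1, hf2, hf3⟩, ?_⟩
      intro p hp
      refine ⟨?_, ?_⟩
      · have : p.2.2 ≤ s.sup (fun p => p.2.2) := le_sup (f := fun p : E × (E →L[ℝ] ℝ) × ℕ => p.2.2) hp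
        show p.2.2 < a
        omega
      · refine lt_of_le_of_lt ?_ hgx
        rw [hg, _root_.sum_apply]
        exact single_le_sum (f := fun q : E × (E →L[ℝ] ℝ) × ℕ => q.2.1 x)
          (fun q hq => (hs q hq).2.2.2.1 x hx0) hp)
  set x : ℕ → E := fun n => (F n).1 with hx
  set f : ℕ → (E →L[ℝ] ℝ) := fun n => (F n).2.1 with hf
  have hidx : ∀ n, n ≤ (F n).2.2 := by
    intro n
    induction n with
    | zero => exact Nat.zero_le _
    | succ n ih => exact Nat.succ_le_of_lt (lt_of_le_of_lt ih (hF2 n (n + 1) (Nat.lt_succ_self n)).1)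
  have hsmall : ∀ m n, m < n → f m (x n) ≤ (1 / 2 : ℝ) ^ n := by
    intro m n hmn
    refine (hF2 m n hmn).2.le.trans ?_
    exact pow_le_pow_of_le_one (by norm_num) (by norm_num) (hidx n)
  obtain ⟨y, z, hyz, hxy, hfy⟩ := exists_tail_sups hE (fun n => (hF1 n).1) (fun n => (hF1 n).2.1)
  -- each `f m` vanishes (is nonpositive) at the limit
  have hgeom : ∀ (n k : ℕ), ∑ i ∈ range k, (1 / 2 : ℝ) ^ (n + i) ≤ 2 * (1 / 2 : ℝ) ^ n := by
    intro n k
    have h1 : ∑ i ∈ range k, (1 / 2 : ℝ) ^ (n + i) = (1 / 2 : ℝ) ^ n * ∑ i ∈ range k, (1 / 2 : ℝ) ^ i := by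
      rw [mul_sum]
      exact sum_congr rfl (fun i _ => pow_add _ _ _)
    rw [h1, mul_comm]
    apply mul_le_mul_of_nonneg_right _ (by positivity)
    have h2 := Summable.sum_le_tsum (range k) (fun i _ => by positivity) summable_geometric_two
    rw [tsum_geometric_two] at h2
    exact h2
  have hfz : ∀ m, f m z ≤ 0 := by
    intro m
    have h1 : ∀ᶠ n in atTop, f m (y n) ≤ 2 * (1 / 2 : ℝ) ^ n := by
      filter_upwards [eventually_gt_atTop m] with n hn
      apply hfy (f m) (hF1 m).2.2.2.1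
      intro k
      refine le_trans (sum_le_sum (fun i _ => ?_)) (hgeom n k)
      exact hsmall m (n + i) (by omega)
    have h2 : Tendsto (fun n => f m (y n)) atTop (𝓝 (f m z)) :=
      ((f m).continuous.tendsto _).comp hyz
    have h3 : Tendsto (fun n : ℕ => 2 * (1 / 2 : ℝ) ^ n) atTop (𝓝 (2 * 0)) :=
      (tendsto_pow_atTop_nhds_zero_of_lt_one (by norm_num) (by norm_num)).const_mul 2
    rw [mul_zero] at h3
    exact le_of_tendsto_of_tendsto h2 h3 h1
  have hcontra : ∀ n, ε ≤ ‖y n - z‖ := by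
    intro n
    have h1 : ‖x n‖ ≤ f n (y n) := by
      rw [← (hF1 n).2.2.2.2.1]
      have := (hF1 n).2.2.2.1 (y n - x n) (sub_nonneg.2 (hxy n))
      rw [map_sub] at this
      show f n (x n) ≤ f n (y n)
      linarith
    have h2 : f n (y n - z) ≤ ‖y n - z‖ := by
      have hp : f n (y n - z) ≤ f n |y n - z| := by
        have := (hF1 n).2.2.2.1 (|y n - z| - (y n - z)) (sub_nonneg.2 (le_abs_self _))
        rw [map_sub] at this
        show f n (y n - z) ≤ f n |y n - z|
        linarith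
      refine hp.trans (((hF1 n).2.2.2.2.2 _ (abs_nonneg _)).trans ?_)
      rw [norm_abs_eq_norm]
    rw [map_sub] at h2
    have h3 := (hF1 n).2.2.1
    have h4 := hfz n
    have h5 : ε ≤ ‖x n‖ := h3
    linarith
  have h1 : Tendsto (fun n => ‖y n - z‖) atTop (𝓝 0) := by
    have := (hyz.sub_const z).norm
    simpa using this
  have h2 := ge_of_tendsto' h1 hcontra
  linarith

/-- One positive functional controls the norm on `[0, u]`. -/
lemma exists_functional [CompleteSpace E] (hE : OrderContinuousNorm E) (u : E) :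
    ∃ g : E →L[ℝ] ℝ, (∀ v, 0 ≤ v → 0 ≤ g v) ∧ ∀ ε > 0, ∃ δ > 0, ∀ x, 0 ≤ x → x ≤ u →
      g x < δ → ‖x‖ < ε := by
  have h : ∀ k : ℕ, ∃ g : E →L[ℝ] ℝ, (∀ v, 0 ≤ v → 0 ≤ g v) ∧ ∃ δ > 0, ∀ x, 0 ≤ x → x ≤ u →
      g x < δ → ‖x‖ < 1 / ((k : ℝ) + 1) :=
    fun k => exists_functional_eps hE u (by positivity)
  choose g hg δ hδ hgδ using h
  set w : ℕ → ℝ := fun k => (1 / 2 : ℝ) ^ k / (1 + ‖g k‖) with hw
  have hwpos : ∀ k, 0 < w k := fun k => by
    rw [hw]
    positivity
  have hsum : Summable (fun k => w k • g k) := by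
    apply Summable.of_norm_bounded summable_geometric_two
    intro k
    rw [norm_smul, Real.norm_eq_abs, abs_of_pos (hwpos k), hw]
    simp only
    rw [div_mul_eq_mul_div, div_le_iff₀ (by positivity)]
    have : (0 : ℝ) ≤ (1 / 2 : ℝ) ^ k := by positivity
    nlinarith [norm_nonneg (g k)]
  set G : E →L[ℝ] ℝ := ∑' k, w k • g k with hG
  have hGapp : ∀ v, HasSum (fun k => w k * g k v) (G v) := by
    intro v
    have := (ContinuousLinearMap.apply ℝ ℝ v).hasSum hsum.hasSum
    simpa using this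
  have hle : ∀ k v, 0 ≤ v → w k * g k v ≤ G v := by
    intro k v hv
    exact le_hasSum (hGapp v) k (fun j _ => mul_nonneg (hwpos j).le (hg j v hv))
  refine ⟨G, fun v hv => ?_, fun ε hε => ?_⟩
  · exact (hGapp v).nonneg (fun j => mul_nonneg (hwpos j).le (hg j v hv))
  · obtain ⟨k, hk⟩ := exists_nat_one_div_lt hε
    refine ⟨w k * δ k, mul_pos (hwpos k) (hδ k), fun x hx0 hxu hGx => ?_⟩
    refine lt_trans (hgδ k x hx0 hxu ?_) hk
    have := hle k x hx0
    exact lt_of_mul_lt_mul_left (lt_of_le_of_lt this hGx) (hwpos k).le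

end Lattice

/-- **Control functionals for vector capacities.** Let `E` be a real Banach lattice with order
continuous norm and `μ` any vector capacity with values in `E` (upper continuity is not needed).
Then there is a positive functional `φ` such that `φ ∘ μ` is a capacity and `μ ≪ φ ∘ μ`. -/
theorem result {X E : Type*} [MeasurableSpace X] [NormedAddCommGroup E] [NormedSpace ℝ E]
    [CompleteSpace E] [Lattice E] [IsOrderedAddMonoid E] [IsOrderedModule ℝ E] [HasSolidNorm E]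
    (hE : OrderContinuousNorm E) (μ : Set X → E) (hμ : IsVectorCapacity μ) :
    ∃ φ : E →L[ℝ] ℝ, (∀ x, 0 ≤ x → 0 ≤ φ x) ∧ IsVectorCapacity (fun A => φ (μ A)) ∧
      AbsCont μ (fun A => φ (μ A)) := by
  obtain ⟨g, hg, hgε⟩ := exists_functional hE (μ Set.univ)
  refine ⟨g, hg, ⟨?_, ?_, ?_⟩, ?_⟩
  · simp [hμ.empty]
  · exact fun A hA => hg _ (hμ.nonneg A hA)
  · intro A B hA hB hAB
    have := hg (μ B - μ A) (sub_nonneg.2 (hμ.mono A B hA hB hAB))
    rw [map_sub] at this
    show g (μ A) ≤ g (μ B)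
    linarith
  · intro ε hε
    obtain ⟨δ, hδ, h⟩ := hgε ε hε
    exact ⟨δ, hδ, fun A hA hlt => h _ (hμ.nonneg A hA)
      (hμ.mono A _ hA MeasurableSet.univ (Set.subset_univ A)) hlt⟩

end Pool.Agent.Results.MP_e24518_an.ControlFunctional
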